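import Pool.Agent.Run7.h991.MU.Iface

/-! # Piece RAY of project MU (MP_dde81e_an) -/

set_option autoImplicit false

open Metric Set Filter Topology

namespace H991.MU

/-- maximum modulus on an annulus -/
lemma ray_ann (g : ℂ → ℂ) (s : ℝ) (k : ℕ) (hs : 0 < s)
    (hg : DifferentiableOn ℂ g (ball 0 1)) (hb : ∀ w ∈ ball (0:ℂ) 1, ‖g w‖ ≤ 1)
    (hk : ∀ w : ℂ, ‖w‖ = s → ‖g w‖ ≤ s ^ k) (w : ℂ) (h1 : s ≤ ‖w‖) (h2 : ‖w‖ < 1) :
    ‖g w‖ ≤ ‖w‖ ^ k := by
  rcases h1.eq_or_lt with h | h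
  · rw [← h]
    exact hk w h.symm
  have hw0 : 0 < ‖w‖ := hs.trans h
  have key : ∀ r : ℝ, ‖w‖ < r → r < 1 → ‖g w‖ ≤ (r⁻¹) ^ k * ‖w‖ ^ k := by
    intro r hr1 hr2
    have hr0 : 0 < r := hw0.trans hr1
    have hU : Bornology.IsBounded {z : ℂ | s < ‖z‖ ∧ ‖z‖ < r} :=
      (isBounded_ball (x := (0:ℂ)) (r := r)).subset (fun z hz => mem_ball_zero_iff.2 hz.2)
    have hopen : IsOpen {z : ℂ | s < ‖z‖ ∧ ‖z‖ < r} :=
      (isOpen_lt continuous_const continuous_norm).inter
        (isOpen_lt continuous_norm continuous_const)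
    have hcl : closure {z : ℂ | s < ‖z‖ ∧ ‖z‖ < r} ⊆ {z : ℂ | s ≤ ‖z‖ ∧ ‖z‖ ≤ r} := by
      apply closure_minimal
      · intro z hz
        exact ⟨hz.1.le, hz.2.le⟩
      · exact (isClosed_le continuous_const continuous_norm).inter
          (isClosed_le continuous_norm continuous_const)
    have hd : DiffContOnCl ℂ (fun z => g z / z ^ k) {z : ℂ | s < ‖z‖ ∧ ‖z‖ < r} := by
      apply DifferentiableOn.diffContOnCl
      refine DifferentiableOn.mono ?_ hcl
      refine DifferentiableOn.div (hg.mono ?_) (differentiableOn_pow k) ?_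
      · intro z hz
        exact mem_ball_zero_iff.2 (lt_of_le_of_lt hz.2 hr2)
      · intro z hz
        exact pow_ne_zero _ (norm_pos_iff.1 (hs.trans_le hz.1))
    have hfr : ∀ z ∈ frontier {z : ℂ | s < ‖z‖ ∧ ‖z‖ < r}, ‖g z / z ^ k‖ ≤ (r⁻¹) ^ k := by
      intro z hz
      rw [hopen.frontier_eq] at hz
      obtain ⟨hz1, hz2⟩ := hz
      have hz3 := hcl hz1
      rw [norm_div, norm_pow]
      by_cases hzs : ‖z‖ = s
      · rw [hzs, div_le_iff₀ (by positivity)]
        have h4 := hk z hzs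
        have h5 : 1 ≤ (r⁻¹) ^ k := one_le_pow₀ ((one_le_inv₀ hr0).2 hr2.le)
        nlinarith [pow_pos hs k]
      · have hzr : ‖z‖ = r := by
          have h6 : s < ‖z‖ := lt_of_le_of_ne hz3.1 (Ne.symm hzs)
          by_contra hne
          exact hz2 ⟨h6, lt_of_le_of_ne hz3.2 hne⟩
        rw [hzr, inv_pow, div_le_iff₀ (by positivity), inv_mul_cancel₀ (by positivity)]
        exact hb z (mem_ball_zero_iff.2 (by rw [hzr]; exact hr2))
    have hz := Complex.norm_le_of_forall_mem_frontier_norm_le hU hd hfr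
      (subset_closure (show w ∈ {z : ℂ | s < ‖z‖ ∧ ‖z‖ < r} from ⟨h, hr1⟩))
    rw [norm_div, norm_pow, div_le_iff₀ (by positivity)] at hz
    exact hz
  have hlim : Tendsto (fun r : ℝ => (r⁻¹) ^ k * ‖w‖ ^ k) (𝓝[<] 1)
      (𝓝 (((1:ℝ)⁻¹) ^ k * ‖w‖ ^ k)) := by
    apply Tendsto.mono_left _ nhdsWithin_le_nhds
    exact ((tendsto_inv₀ one_ne_zero).pow k).mul_const _
  have h7 := ge_of_tendsto hlim (by
    filter_upwards [Ioo_mem_nhdsLT h2] with r hr
    exact key r hr.1 hr.2)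
  simpa using h7

theorem t_RAY : S_RAY := by
  intro c κ hc hκ hκ2
  have hL : 0 < Real.log (4 / κ) := Real.log_pos (by rw [lt_div_iff₀ hκ]; linarith)
  obtain ⟨L, hLd⟩ : ∃ L, L = Real.log (4 / κ) := ⟨_, rfl⟩
  rw [← hLd] at hL
  refine ⟨c / (2 * L), by positivity, ?_⟩
  intro G hG hG1 hR z hz
  obtain ⟨R, hR1, hR2⟩ := hR (4 * ‖z‖ + 2 * L / c + 1)
  have hz0 : 0 < ‖z‖ := lt_of_lt_of_le hz (Complex.re_le_norm z)
  have h2L : 0 < 2 * L / c := by positivity
  have hRpos : 0 < R := by linarith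
  have hRC : (R : ℂ) ≠ 0 := by exact_mod_cast hRpos.ne'
  -- the disc
  have hne1 : ∀ w ∈ ball (0:ℂ) 1, (1:ℂ) - w ≠ 0 := by
    intro w hw h0
    rw [mem_ball_zero_iff] at hw
    have : w = 1 := by linear_combination -h0
    rw [this, norm_one] at hw
    exact lt_irrefl _ hw
  have hre : ∀ w ∈ ball (0:ℂ) 1, 0 < ((R : ℂ) * (1 + w) / (1 - w)).re := by
    intro w hw
    have h1 := hne1 w hw
    rw [mem_ball_zero_iff] at hw
    have h2 : (R : ℂ) * (1 + w) / (1 - w) =
        (R : ℂ) * ((1 + w) * (starRingEnd ℂ) (1 - w)) / ((Complex.normSq (1 - w) : ℝ) : ℂ) := by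
      rw [Complex.normSq_eq_conj_mul_self]
      have h3 : (starRingEnd ℂ) (1 - w) ≠ 0 := (map_ne_zero _).2 h1
      field_simp
    rw [h2, Complex.div_ofReal_re, Complex.re_ofReal_mul]
    have h4 : 0 < Complex.normSq (1 - w) := Complex.normSq_pos.2 h1
    have h5 : ((1 + w) * (starRingEnd ℂ) (1 - w)).re = 1 - ‖w‖ ^ 2 := by
      rw [← Complex.normSq_eq_norm_sq, Complex.normSq_apply]
      simp [Complex.mul_re, Complex.add_re, Complex.add_im, Complex.sub_re, Complex.sub_im]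
      ring
    rw [h5]
    have h6 : 0 < 1 - ‖w‖ ^ 2 := by nlinarith [norm_nonneg w]
    positivity
  obtain ⟨g, hgd⟩ : ∃ g : ℂ → ℂ, g = fun w => G ((R : ℂ) * (1 + w) / (1 - w)) := ⟨_, rfl⟩
  have hg : DifferentiableOn ℂ g (ball 0 1) := by
    rw [hgd]
    refine DifferentiableOn.comp (t := {z : ℂ | 0 < z.re}) hG ?_ hre
    refine DifferentiableOn.div ?_ ?_ hne1
    · exact ((differentiableOn_const _).mul ((differentiableOn_const _).add differentiableOn_id))
    · exact (differentiableOn_const _).sub differentiableOn_id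
  have hb : ∀ w ∈ ball (0:ℂ) 1, ‖g w‖ ≤ 1 := by
    intro w hw
    rw [hgd]
    exact hG1 _ (hre w hw)
  obtain ⟨k, hkd⟩ : ∃ k : ℕ, k = ⌊c * R / L⌋₊ := ⟨_, rfl⟩
  have hk1 : (k : ℝ) * L ≤ c * R := by
    have h1 : (k : ℝ) ≤ c * R / L := by
      rw [hkd]
      exact Nat.floor_le (by positivity)
    rwa [le_div_iff₀ hL] at h1
  have hk2 : c * R / L - 1 ≤ k := by
    have h1 := Nat.lt_floor_add_one (c * R / L)
    rw [← hkd] at h1
    linarith
  have hk : ∀ w : ℂ, ‖w‖ = κ / 4 → ‖g w‖ ≤ (κ / 4) ^ k := by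
    intro w hw
    have hwb : w ∈ ball (0:ℂ) 1 := mem_ball_zero_iff.2 (by rw [hw]; linarith)
    have h1 := hne1 w hwb
    have h2 : (R : ℂ) * (1 + w) / (1 - w) - R = (R : ℂ) * (2 * w) / (1 - w) := by
      field_simp
      ring
    have h3 : 1 / 2 ≤ ‖(1:ℂ) - w‖ := by
      have h4 := norm_sub_norm_le (1:ℂ) w
      rw [norm_one, hw] at h4
      linarith
    have h5 : ‖(R : ℂ) * (1 + w) / (1 - w) - R‖ ≤ κ * R := by
      rw [h2, norm_div, norm_mul, norm_mul, hw, Complex.norm_real, Real.norm_of_nonneg hRpos.le,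
        Complex.norm_ofNat, div_le_iff₀ (by linarith)]
      nlinarith [mul_pos hκ hRpos]
    have h6 := hR2 _ h5
    have h7 : Real.exp (-(c * R)) ≤ (κ / 4) ^ k := by
      have h8 : (κ / 4) ^ k = Real.exp (-((k : ℝ) * L)) := by
        have h9 : κ / 4 = Real.exp (-L) := by
          rw [hLd, Real.exp_neg, Real.exp_log (by positivity), inv_div]
        rw [h9, ← Real.exp_nat_mul]
        congr 1
        ring
      rw [h8]
      exact Real.exp_le_exp.2 (by linarith)
    rw [hgd]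
    exact h6.trans h7
  -- the point
  have hzR : z + R ≠ 0 := by
    intro h0
    have h1 := congrArg Complex.re h0
    rw [Complex.add_re, Complex.ofReal_re, Complex.zero_re] at h1
    linarith
  have hnp : 0 < ‖z + R‖ := norm_pos_iff.2 hzR
  have hsq : ‖z - R‖ ^ 2 = ‖z + R‖ ^ 2 - 4 * R * z.re := by
    rw [← Complex.normSq_eq_norm_sq, ← Complex.normSq_eq_norm_sq, Complex.normSq_apply,
      Complex.normSq_apply]
    simp [Complex.add_re, Complex.add_im, Complex.sub_re, Complex.sub_im]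
    ring
  have hup : ‖z + R‖ ≤ 5 / 4 * R := by
    have h1 := norm_add_le z (R : ℂ)
    rw [Complex.norm_real, Real.norm_of_nonneg hRpos.le] at h1
    linarith
  have hlo : 3 / 4 * R ≤ ‖z - R‖ := by
    have h1 := norm_sub_norm_le (R : ℂ) z
    rw [Complex.norm_real, Real.norm_of_nonneg hRpos.le, norm_sub_rev] at h1
    linarith
  have hw : ‖(z - R) / (z + R)‖ = ‖z - R‖ / ‖z + R‖ := norm_div _ _
  have hw1 : κ / 4 ≤ ‖(z - R) / (z + R)‖ := by
    rw [hw, le_div_iff₀ hnp]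
    nlinarith
  have hw2 : ‖(z - R) / (z + R)‖ < 1 := by
    rw [hw, div_lt_one hnp]
    have h1 : ‖z - R‖ ^ 2 < ‖z + R‖ ^ 2 := by
      rw [hsq]
      nlinarith [mul_pos hRpos hz]
    exact lt_of_pow_lt_pow_left₀ 2 hnp.le h1
  have hgz : g ((z - R) / (z + R)) = G z := by
    rw [hgd]
    show G ((R : ℂ) * (1 + (z - R) / (z + R)) / (1 - (z - R) / (z + R))) = G z
    congr 1
    have h1 : (1 : ℂ) + (z - R) / (z + R) = 2 * z / (z + R) := by
      field_simp
      ring
    have h2 : (1 : ℂ) - (z - R) / (z + R) = 2 * R / (z + R) := by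
      field_simp
      ring
    rw [h1, h2]
    field_simp
  have hmain := ray_ann g (κ / 4) k (by positivity) hg hb hk _ hw1 hw2
  rw [hgz] at hmain
  refine hmain.trans ?_
  -- `|w| ≤ exp (- Re z / R)`
  have hwe : ‖(z - R) / (z + R)‖ ≤ Real.exp (-(z.re / R)) := by
    have h1 : ‖(z - R) / (z + R)‖ ^ 2 ≤ Real.exp (-(z.re / R)) ^ 2 := by
      have h2 : Real.exp (-(z.re / R)) ^ 2 = Real.exp (-(2 * (z.re / R))) := by
        rw [← Real.exp_nat_mul]
        congr 1
        push_cast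
        ring
      rw [h2, hw, div_pow, hsq, sub_div, div_self (by positivity)]
      have h3 : 2 * (z.re / R) ≤ 4 * R * z.re / ‖z + R‖ ^ 2 := by
        rw [le_div_iff₀ (by positivity)]
        have h4 : ‖z + R‖ ^ 2 ≤ 2 * R ^ 2 := by nlinarith
        calc 2 * (z.re / R) * ‖z + R‖ ^ 2 ≤ 2 * (z.re / R) * (2 * R ^ 2) := by gcongr
          _ = 4 * R * z.re := by
            field_simp
            ring
      have h5 := Real.add_one_le_exp (-(2 * (z.re / R)))
      linarith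
    exact (pow_le_pow_iff_left₀ (norm_nonneg _) (Real.exp_pos _).le two_ne_zero).1 h1
  have hfin : ‖(z - R) / (z + R)‖ ^ k ≤ Real.exp (-(z.re / R)) ^ k :=
    pow_le_pow_left₀ (norm_nonneg _) hwe k
  refine hfin.trans ?_
  rw [← Real.exp_nat_mul]
  apply Real.exp_le_exp.2
  have h1 : c / (2 * L) * R ≤ k := by
    have h2 : 1 ≤ c / (2 * L) * R := by
      have h3 : 2 * L / c ≤ R := by linarith
      rw [div_le_iff₀ hc] at h3
      rw [div_mul_eq_mul_div, le_div_iff₀ (by positivity)]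
      linarith
    have h4 : c * R / L = 2 * (c / (2 * L) * R) := by
      field_simp
    rw [h4] at hk2
    linarith
  have h5 : c / (2 * L) * z.re ≤ k * (z.re / R) := by
    calc c / (2 * L) * z.re = (c / (2 * L) * R) * (z.re / R) := by
          field_simp
      _ ≤ k * (z.re / R) := by
          apply mul_le_mul_of_nonneg_right h1
          positivity
  linarith

end H991.MU

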